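import Pool.Agent.Results.MP_9fd99d_al.VerbalQuotientRF

/-! The construction: a residually finite group `G` with a verbal quotient retracting onto a
prescribed group. -/

set_option autoImplicit false

namespace Pool.Agent.Y35.VQ

open Pool.Agent.Results.MP_9fd99d_al.VerbalQuotientRF Group

theorem fg_map {A B : Type} [Group A] [Group B] {T : Subgroup A} (hT : T.FG) (f : A →* B) :
    (T.map f).FG := by
  classical
  obtain ⟨S, hS⟩ := hT
  refine ⟨S.image f, ?_⟩
  rw [← hS, MonoidHom.map_closure, Finset.coe_image]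

theorem fg_bot (A : Type) [Group A] : (⊥ : Subgroup A).FG := ⟨∅, by simp⟩

section core

variable {E : Type} [Group E] (S : Subgroup E) [S.Normal] {I : Type} (K : I → Type)
  [∀ i, Group (K i)] (ψ : ∀ i, E →* K i) {n : ℕ} (A : I → Type) [∀ i, Group (A i)]
  (φ : ∀ i, FreeGroup (Fin n) →* A i)

/-- The ambient group. -/
abbrev Amb : Type := (∀ i, K i ≀ᵣ A i) × (E ⧸ S)

/-- The elements all of whose coordinates agree, up to a common finitely generated subgroup of `S`,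
with an element of `E` in the prescribed class. -/
def Gam : Subgroup (Amb S K A) where
  carrier := {x | ∃ e : E, ∃ T : Subgroup E, T.FG ∧ T ≤ S ∧ x.2 = (e : E ⧸ S) ∧
    ∀ i h, ∃ t ∈ T, (x.1 i).left h = ψ i (e * t)}
  mul_mem' := by
    rintro x y ⟨e, T, hT, hTS, hx, hx'⟩ ⟨f, U, hU, hUS, hy, hy'⟩
    refine ⟨e * f, T.map (MulAut.conj f⁻¹).toMonoidHom ⊔ U, ?_, ?_, ?_, ?_⟩
    · exact (fg_map hT _).sup hU
    · refine sup_le ?_ hUS
      rintro _ ⟨t, ht, rfl⟩
      exact (inferInstance : S.Normal).conj_mem t (hTS ht) _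
    · change x.2 * y.2 = _
      rw [hx, hy]; rfl
    · intro i h
      obtain ⟨t, ht, h1⟩ := hx' i h
      obtain ⟨u, hu, h2⟩ := hy' i ((x.1 i).right⁻¹ * h)
      refine ⟨f⁻¹ * t * f * u, ?_, ?_⟩
      · refine Subgroup.mul_mem _ (Subgroup.mem_sup_left ⟨t, ht, ?_⟩) (Subgroup.mem_sup_right hu)
        simp [MulAut.conj_apply]
      · change (x.1 i).left h * (y.1 i).left ((x.1 i).right⁻¹ * h) = _
        rw [h1, h2, ← map_mul]
        congr 1
        group
  one_mem' := by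
    refine ⟨1, ⊥, fg_bot E, bot_le, rfl, fun i h => ⟨1, Subgroup.one_mem _, ?_⟩⟩
    rw [mul_one, map_one]; rfl
  inv_mem' := by
    rintro x ⟨e, T, hT, hTS, hx, hx'⟩
    refine ⟨e⁻¹, T.map (MulAut.conj e).toMonoidHom, fg_map hT _, ?_, ?_, ?_⟩
    · rintro _ ⟨t, ht, rfl⟩
      exact (inferInstance : S.Normal).conj_mem t (hTS ht) _
    · change x.2⁻¹ = _
      rw [hx]; rfl
    · intro i h
      obtain ⟨t, ht, h1⟩ := hx' i ((x.1 i).right * h)
      refine ⟨e * t⁻¹ * e⁻¹, ⟨t⁻¹, Subgroup.inv_mem _ ht, by simp [MulAut.conj_apply]⟩, ?_⟩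
      change ((x.1 i).left ((x.1 i).right * h))⁻¹ = _
      rw [h1, ← map_inv]
      congr 1
      group

/-- A product of finite groups is residually finite. -/
theorem rf_pi {J : Type} (B : J → Type) [∀ j, Group (B j)] [∀ j, Finite (B j)] :
    ResiduallyFinite (∀ j, B j) := by
  apply residuallyFinite_of_forall_exists_finite_monoidHom
  intro g hg
  obtain ⟨j, hj⟩ : ∃ j, g j ≠ 1 := by
    by_contra h
    push Not at h
    exact hg (funext h)
  exact ⟨B j, inferInstance, inferInstance, Pi.evalMonoidHom B j, hj⟩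

theorem rf_Gam [∀ i, Finite (K i)] [∀ i, Finite (A i)]
    (hsep : ∀ T : Subgroup E, T.FG → T ≤ S → ∀ e, (∀ i, ∃ t ∈ T, ψ i e = ψ i t) → e ∈ S)
    (G : Subgroup (Amb S K A)) (hG : G ≤ Gam S K ψ A) : ResiduallyFinite G := by
  refine rf_of_injective (((MonoidHom.fst _ _).comp G.subtype : G →* (∀ i, K i ≀ᵣ A i))) ?_
    (rf_pi _)
  rw [injective_iff_map_eq_one]
  rintro ⟨⟨x, q⟩, hx⟩ h
  have hx1 : x = 1 := h
  obtain ⟨e, T, hT, hTS, h1, h2⟩ := hG hx
  have h3 : e⁻¹ ∈ S := by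
    refine hsep T hT hTS e⁻¹ (fun i => ?_)
    obtain ⟨t, ht, h4⟩ := h2 i 1
    refine ⟨t, ht, ?_⟩
    have h5 : (1 : K i) = ψ i (e * t) := by
      rw [← h4]
      change (1 : K i) = (x i).left 1
      rw [hx1]; rfl
    rw [map_mul] at h5
    rw [map_inv]
    exact inv_eq_of_mul_eq_one_right h5.symm
  have h4 : q = 1 := by
    have : q = (e : E ⧸ S) := h1
    rw [this]
    exact (QuotientGroup.eq_one_iff _).mpr (by simpa using S.inv_mem h3)
  apply Subtype.ext
  exact Prod.ext hx1 h4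

/-- The diagonal embedding. -/
def D : E →* Amb S K A where
  toFun e := (fun i => ⟨fun _ => ψ i e, 1⟩, e)
  map_one' := by
    refine Prod.ext (funext fun i => ?_) rfl
    refine RegularWreathProduct.ext (funext fun h => ?_) rfl
    exact map_one _
  map_mul' a b := by
    refine Prod.ext (funext fun i => ?_) rfl
    refine RegularWreathProduct.ext (funext fun h => ?_) ?_
    · exact map_mul _ _ _
    · exact (mul_one _).symm

/-- The free group acting on the second factors of the wreath products. -/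
def J : FreeGroup (Fin n) →* Amb S K A where
  toFun v := (fun i => ⟨1, φ i v⟩, 1)
  map_one' := by
    refine Prod.ext (funext fun i => ?_) rfl
    refine RegularWreathProduct.ext rfl ?_
    exact map_one _
  map_mul' a b := by
    refine Prod.ext (funext fun i => ?_) (mul_one _).symm
    refine RegularWreathProduct.ext (funext fun h => ?_) ?_
    · exact (mul_one _).symm
    · exact map_mul _ _ _

/-- The functions `h ↦ s ^ k(h)`. -/
def F (k : ∀ i, A i → ℤ) (s : E) : Amb S K A := (fun i => ⟨fun h => ψ i s ^ k i h, 1⟩, 1)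

theorem D_mem (e : E) : D S K ψ A e ∈ Gam S K ψ A :=
  ⟨e, ⊥, fg_bot E, bot_le, rfl, fun i h => ⟨1, Subgroup.one_mem _, by rw [mul_one]; rfl⟩⟩

theorem J_mem (v : FreeGroup (Fin n)) : J S K A φ v ∈ Gam S K ψ A :=
  ⟨1, ⊥, fg_bot E, bot_le, rfl, fun i h => ⟨1, Subgroup.one_mem _, by
    rw [mul_one, map_one]; rfl⟩⟩

theorem F_mem (k : ∀ i, A i → ℤ) (s : E) (hs : s ∈ S) : F S K ψ A k s ∈ Gam S K ψ A :=
  ⟨1, Subgroup.zpowers s, ⟨{s}, by simp [Subgroup.zpowers_eq_closure]⟩,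
    Subgroup.zpowers_le.mpr hs, rfl, fun i h => ⟨s ^ k i h, Subgroup.zpow_mem _
      (Subgroup.mem_zpowers _) _, by rw [one_mul, map_zpow]; rfl⟩⟩

/-- The group used in the construction. -/
def GG (k : ∀ i, A i → ℤ) (R : Set E) : Subgroup (Amb S K A) :=
  (D S K ψ A).range ⊔ (J S K A φ).range ⊔ Subgroup.closure (F S K ψ A k '' R)

theorem GG_le (k : ∀ i, A i → ℤ) (R : Set E) (hR : R ⊆ S) : GG S K ψ A φ k R ≤ Gam S K ψ A := by
  refine sup_le (sup_le ?_ ?_) ?_
  · rintro _ ⟨e, rfl⟩; exact D_mem S K ψ A e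
  · rintro _ ⟨v, rfl⟩; exact J_mem S K ψ A φ v
  · rw [Subgroup.closure_le]
    rintro _ ⟨s, hs, rfl⟩; exact F_mem S K ψ A k s (hR hs)

theorem D_mem_GG (k : ∀ i, A i → ℤ) (R : Set E) (e : E) : D S K ψ A e ∈ GG S K ψ A φ k R :=
  Subgroup.mem_sup_left (Subgroup.mem_sup_left ⟨e, rfl⟩)

theorem J_mem_GG (k : ∀ i, A i → ℤ) (R : Set E) (v : FreeGroup (Fin n)) :
    J S K A φ v ∈ GG S K ψ A φ k R :=
  Subgroup.mem_sup_left (Subgroup.mem_sup_right ⟨v, rfl⟩)

theorem F_mem_GG (k : ∀ i, A i → ℤ) (R : Set E) (s : E) (hs : s ∈ R) :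
    F S K ψ A k s ∈ GG S K ψ A φ k R :=
  Subgroup.mem_sup_right (Subgroup.subset_closure ⟨s, hs, rfl⟩)

/-- The commutator relation. -/
theorem comm_rel (k : ∀ i, A i → ℤ) (s : E) (hs : s ∈ S) (w : FreeGroup (Fin n))
    (hk : ∀ i h, ψ i s ^ k i ((φ i w)⁻¹ * h) = ψ i s ^ (k i h - 1)) :
    D S K ψ A s = F S K ψ A k s * (J S K A φ w * (F S K ψ A k s)⁻¹ * (J S K A φ w)⁻¹) := by
  refine Prod.ext (funext fun i => ?_) ?_
  · refine RegularWreathProduct.ext (funext fun h => ?_) ?_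
    · change ψ i s = ψ i s ^ k i h * (1 * (ψ i s ^ k i (1 * ((φ i w)⁻¹ * (1⁻¹ * h))))⁻¹ *
        (1 : A i → K i)⁻¹ _)
      rw [one_mul, one_mul, inv_one, one_mul, hk, inv_one, Pi.one_apply, mul_one, ← zpow_neg,
        ← zpow_add]
      simp
    · change (1 : A i) = 1 * (φ i w * 1⁻¹ * (φ i w)⁻¹)
      simp
  · change ((s : E) : E ⧸ S) = 1 * (1 * 1⁻¹ * 1⁻¹)
    rw [(QuotientGroup.eq_one_iff s).mpr hs]
    simp

end core

end Pool.Agent.Y35.VQ
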