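import Mathlib

/-! Finitely generated subgroups of free groups are closed in the profinite topology (M. Hall), and
every nontrivial element has order divisible by a prescribed number in some finite quotient. -/

set_option autoImplicit false

namespace Pool.Agent.Y35.VQ

section act

variable {X Y : Type} [MulAction (FreeGroup X) Y] (B : Finset Y)

/-- A generator as a bijection between two subsets of `B`. -/
def pact (x : X) :
    {u : {u // u ∈ B} // FreeGroup.of x • u.1 ∈ B} ≃
      {u : {u // u ∈ B} // (FreeGroup.of x)⁻¹ • u.1 ∈ B} where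
  toFun := fun u => ⟨⟨FreeGroup.of x • u.1.1, u.2⟩, by
    simp only [inv_smul_smul]; exact u.1.2⟩
  invFun := fun u => ⟨⟨(FreeGroup.of x)⁻¹ • u.1.1, u.2⟩, by
    simp only [smul_inv_smul]; exact u.1.2⟩
  left_inv := fun u => by ext; simp
  right_inv := fun u => by ext; simp

open Classical in
/-- The permutation of `B` extending the action of a generator. -/
noncomputable def act1 (x : X) : Equiv.Perm {u // u ∈ B} := (pact B x).extendSubtype

theorem act1_apply (x : X) (u : {u // u ∈ B}) (h : FreeGroup.of x • u.1 ∈ B) :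
    act1 B x u = ⟨FreeGroup.of x • u.1, h⟩ := by
  classical
  exact Equiv.extendSubtype_apply_of_mem (pact B x) u h

theorem act_mk (y : Y) (hy : y ∈ B) : ∀ (L : List (X × Bool)),
    (∀ L', L' <:+ L → FreeGroup.mk L' • y ∈ B) →
    (FreeGroup.lift (act1 B) (FreeGroup.mk L) ⟨y, hy⟩).1 = FreeGroup.mk L • y := by
  intro L
  induction L with
  | nil =>
    intro _
    rw [← FreeGroup.one_eq_mk, map_one, one_smul]
    rfl
  | cons a L ih =>
    intro h
    obtain ⟨x, b⟩ := a
    have hmk : FreeGroup.mk ((x, b) :: L) = FreeGroup.mk [(x, b)] * FreeGroup.mk L := by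
      rw [FreeGroup.mul_mk]; rfl
    have h' : FreeGroup.mk L • y ∈ B := h L (List.suffix_cons _ _)
    have ih2 : FreeGroup.lift (act1 B) (FreeGroup.mk L) ⟨y, hy⟩ = ⟨FreeGroup.mk L • y, h'⟩ :=
      Subtype.ext (ih (fun L' hL' => h L' (hL'.trans (List.suffix_cons _ _))))
    have hmem := h _ List.suffix_rfl
    rw [hmk, mul_smul] at hmem
    rw [hmk, map_mul, Equiv.Perm.mul_apply, ih2, mul_smul]
    cases b with
    | true =>
      have h1 : FreeGroup.mk [(x, true)] = FreeGroup.of x := rfl
      rw [h1] at hmem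
      rw [h1, FreeGroup.lift_apply_of, act1_apply B x _ hmem]
    | false =>
      have h1 : FreeGroup.mk [(x, false)] = (FreeGroup.of x)⁻¹ := rfl
      rw [h1] at hmem
      rw [h1, map_inv, FreeGroup.lift_apply_of]
      have h2 : act1 B x ⟨(FreeGroup.of x)⁻¹ • FreeGroup.mk L • y, hmem⟩ =
          ⟨FreeGroup.mk L • y, h'⟩ := by
        rw [act1_apply B x _ (by simpa using h')]
        apply Subtype.ext
        simp
      rw [← h2, ← Equiv.Perm.mul_apply, inv_mul_cancel]
      rfl

end act

/-- M. Hall: finitely generated subgroups of free groups are separable. -/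
theorem lerf {X : Type} (T : Subgroup (FreeGroup X)) (hT : T.FG) (e : FreeGroup X) (he : e ∉ T) :
    ∃ (A : Type) (_ : Group A) (_ : Finite A) (φ : FreeGroup X →* A), ∀ t ∈ T, φ e ≠ φ t := by
  classical
  obtain ⟨S, hS⟩ := hT
  let Y := FreeGroup X ⧸ T
  let y0 : Y := ((1 : FreeGroup X) : Y)
  let B : Finset Y := (insert e S).biUnion
    (fun g => (g.toWord.tails.map (fun L => FreeGroup.mk L • y0)).toFinset)
  have hB : ∀ g ∈ insert e S, ∀ L', L' <:+ g.toWord → FreeGroup.mk L' • y0 ∈ B := by
    intro g hg L' hL'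
    refine Finset.mem_biUnion.mpr ⟨g, hg, ?_⟩
    simp only [List.mem_toFinset, List.mem_map, List.mem_tails]
    exact ⟨L', hL', rfl⟩
  have hy0 : y0 ∈ B := by
    have := hB e (Finset.mem_insert_self _ _) [] (List.nil_suffix)
    rw [← FreeGroup.one_eq_mk, one_smul] at this
    exact this
  let b0 : {u // u ∈ B} := ⟨y0, hy0⟩
  let φ : FreeGroup X →* Equiv.Perm {u // u ∈ B} := FreeGroup.lift (act1 B)
  have key : ∀ g ∈ insert e S, (φ g b0).1 = g • y0 := by
    intro g hg
    have := act_mk B y0 hy0 g.toWord (hB g hg)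
    rw [FreeGroup.mk_toWord] at this
    exact this
  have hfix : ∀ t ∈ T, φ t b0 = b0 := by
    have hle : T ≤ (MulAction.stabilizer (Equiv.Perm {u // u ∈ B}) b0).comap φ := by
      rw [← hS, Subgroup.closure_le]
      intro s hs
      have hsT : s ∈ T := by rw [← hS]; exact Subgroup.subset_closure hs
      have h1 := key s (Finset.mem_insert_of_mem hs)
      change φ s b0 = b0
      apply Subtype.ext
      rw [h1]
      change ((s * 1 : FreeGroup X) : Y) = ((1 : FreeGroup X) : Y)
      rw [mul_one]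
      exact (QuotientGroup.eq).mpr (by simpa using hsT)
    intro t ht
    exact hle ht
  refine ⟨Equiv.Perm {u // u ∈ B}, inferInstance, inferInstance, φ, ?_⟩
  intro t ht h
  have h1 := key e (Finset.mem_insert_self _ _)
  rw [h, hfix t ht] at h1
  apply he
  have h2 : ((1 : FreeGroup X) : Y) = ((e * 1 : FreeGroup X) : Y) := h1
  rw [mul_one] at h2
  have h3 := (QuotientGroup.eq).mp h2
  simpa using h3

/-- Orders divisible by a prescribed number. -/
theorem order_div {X : Type} (w : FreeGroup X) (hw : w ≠ 1) (L : ℕ) (hL : 0 < L) :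
    ∃ (A : Type) (_ : Group A) (_ : Finite A) (φ : FreeGroup X →* A), L ∣ orderOf (φ w) := by
  classical
  let T : Subgroup (FreeGroup X) := Subgroup.zpowers (w ^ L)
  have hT : T.FG := ⟨{w ^ L}, by simp [T, Subgroup.zpowers_eq_closure]⟩
  have hinj : Function.Injective (fun k : ℤ => w ^ k) := by
    apply injective_zpow_iff_not_isOfFinOrder.mpr
    exact not_isOfFinOrder_of_isMulTorsionFree hw
  have hsep : ∀ j : Fin L, ∃ (A : Type) (_ : Group A) (_ : Finite A) (φ : FreeGroup X →* A),
      0 < j.1 → ∀ t ∈ T, φ (w ^ j.1) ≠ φ t := by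
    intro j
    by_cases hj : 0 < j.1
    · have : w ^ j.1 ∉ T := by
        intro h
        obtain ⟨k, hk⟩ := Subgroup.mem_zpowers_iff.mp h
        have h1 : w ^ ((L : ℤ) * k) = w ^ (j.1 : ℤ) := by
          rw [zpow_mul, zpow_natCast, hk, zpow_natCast]
        have h2 : (L : ℤ) * k = j.1 := hinj h1
        have h3 : (L : ℤ) ∣ (j.1 : ℤ) := ⟨k, h2.symm⟩
        have h4 : L ∣ j.1 := by exact_mod_cast h3
        exact absurd (Nat.le_of_dvd hj h4) (by omega)
      obtain ⟨A, i1, i2, φ, h⟩ := lerf T hT _ this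
      exact ⟨A, i1, i2, φ, fun _ => h⟩
    · exact ⟨PUnit, inferInstance, inferInstance, 1, fun h => absurd h hj⟩
  choose A iG iF φ hφ using hsep
  refine ⟨∀ j, A j, inferInstance, inferInstance, MonoidHom.pi φ, ?_⟩
  set r := orderOf (MonoidHom.pi φ w) with hr
  by_contra hcon
  have hg : Nat.gcd L r < L := by
    rcases lt_or_eq_of_le (Nat.gcd_le_left r hL) with h | h
    · exact h
    · exfalso
      apply hcon
      rw [← h]
      exact Nat.gcd_dvd_right L r
  have hg0 : 0 < Nat.gcd L r := Nat.gcd_pos_of_pos_left r hL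
  let j : Fin L := ⟨Nat.gcd L r, hg⟩
  have h1 : (φ j w) ^ r = 1 := by
    have h2 : (MonoidHom.pi φ w) ^ r = 1 := pow_orderOf_eq_one _
    have h3 := congrFun h2 j
    exact h3
  have hb : ((Nat.gcd L r : ℕ) : ℤ) = L * Nat.gcdA L r + r * Nat.gcdB L r := Nat.gcd_eq_gcd_ab L r
  apply hφ j hg0 ((w ^ L) ^ (Nat.gcdA L r)) (Subgroup.zpow_mem _ (Subgroup.mem_zpowers _) _)
  change φ j (w ^ (Nat.gcd L r)) = _
  rw [← zpow_natCast w (Nat.gcd L r), hb, zpow_add, map_mul, zpow_mul, zpow_mul, zpow_natCast,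
    zpow_natCast, map_zpow (φ j) (w ^ r), map_pow, h1, one_zpow, mul_one]

end Pool.Agent.Y35.VQ
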