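import Pool.Agent.Y35.VQ.Core
import Pool.Agent.Y35.VQ.Lerf

/-! Every group of a proper variety is a retract of a verbal quotient of a residually finite
group. -/

set_option autoImplicit false

namespace Pool.Agent.Y35.VQ

open Pool.Agent.Results.MP_9fd99d_al.VerbalQuotientRF Group

section core

variable {E : Type} [Group E] (S : Subgroup E) [S.Normal] {I : Type} (K : I → Type)
  [∀ i, Group (K i)] (ψ : ∀ i, E →* K i) {n : ℕ} (A : I → Type) [∀ i, Group (A i)]
  (φ : ∀ i, FreeGroup (Fin n) →* A i)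

theorem J_mem_verbal (W : Set (FreeGroup ℕ)) (w : FreeGroup (Fin n))
    (hw : FreeGroup.map Fin.val w ∈ W) (k : ∀ i, A i → ℤ) (R : Set E) :
    (⟨J S K A φ w, J_mem_GG S K ψ A φ k R w⟩ : GG S K ψ A φ k R) ∈
      verbal W (GG S K ψ A φ k R) := by
  let jG : FreeGroup (Fin n) →* GG S K ψ A φ k R :=
    (J S K A φ).codRestrict _ (J_mem_GG S K ψ A φ k R)
  let f : ℕ → GG S K ψ A φ k R := fun j => if h : j < n then jG (FreeGroup.of ⟨j, h⟩) else 1
  refine Subgroup.subset_closure ⟨_, hw, f, ?_⟩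
  have h1 : (FreeGroup.lift f).comp (FreeGroup.map Fin.val) = jG := by
    refine FreeGroup.ext_hom _ _ (fun i => ?_)
    rw [MonoidHom.comp_apply, FreeGroup.map.of, FreeGroup.lift_apply_of]
    simp [f]
  change ((FreeGroup.lift f).comp (FreeGroup.map Fin.val)) w = jG w
  rw [h1]

theorem retract (W : Set (FreeGroup ℕ)) (w : FreeGroup (Fin n))
    (hw : FreeGroup.map Fin.val w ∈ W) (hV : InVariety W (E ⧸ S)) (k : ∀ i, A i → ℤ)
    (hk : ∀ i (s : E) h, ψ i s ^ k i ((φ i w)⁻¹ * h) = ψ i s ^ (k i h - 1))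
    (R : Set E) (hRS : R ⊆ S) (hR : S ≤ verbal W E ⊔ Subgroup.normalClosure R) :
    ∃ (a : E ⧸ S →* GG S K ψ A φ k R ⧸ verbal W (GG S K ψ A φ k R))
      (b : GG S K ψ A φ k R ⧸ verbal W (GG S K ψ A φ k R) →* E ⧸ S),
      b.comp a = MonoidHom.id (E ⧸ S) := by
  let G := GG S K ψ A φ k R
  let d : E →* G := (D S K ψ A).codRestrict _ (D_mem_GG S K ψ A φ k R)
  let c : G := ⟨J S K A φ w, J_mem_GG S K ψ A φ k R w⟩
  have hc : c ∈ verbal W G := J_mem_verbal S K ψ A φ W w hw k R
  have hle : S ≤ (verbal W G).comap d := by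
    refine hR.trans (sup_le (Subgroup.map_le_iff_le_comap.mp (verbal_map_le W d)) ?_)
    apply Subgroup.normalClosure_le_normal
    intro s hs
    let f : G := ⟨F S K ψ A k s, F_mem_GG S K ψ A φ k R s hs⟩
    have h1 : d s = f * c * f⁻¹ * c⁻¹ := by
      apply Subtype.ext
      change D S K ψ A s = F S K ψ A k s * J S K A φ w * (F S K ψ A k s)⁻¹ * (J S K A φ w)⁻¹
      rw [comm_rel S K ψ A φ k s (hRS hs) w (fun i h => hk i s h)]
      group
    change d s ∈ verbal W G
    rw [h1]
    exact Subgroup.mul_mem _ ((inferInstance : (verbal W G).Normal).conj_mem c hc f)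
      (Subgroup.inv_mem _ hc)
  let p : G →* E ⧸ S := (MonoidHom.snd _ _).comp G.subtype
  have hp : verbal W G ≤ p.ker := by
    intro x hx
    have h1 := verbal_map_le W p (Subgroup.mem_map_of_mem _ hx)
    rw [verbal_eq_bot_of_inVariety hV, Subgroup.mem_bot] at h1
    exact h1
  refine ⟨QuotientGroup.lift S ((QuotientGroup.mk' (verbal W G)).comp d) ?_,
    QuotientGroup.lift (verbal W G) p hp, ?_⟩
  · intro x hx
    exact (QuotientGroup.eq_one_iff _).mpr (hle hx)
  · ext x
    rfl

theorem countable_closure {B : Type} [Group B] (s : Set B) (hs : s.Countable) :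
    Countable (Subgroup.closure s) := by
  have : Countable s := hs
  have h1 : (FreeGroup.lift (Subtype.val : s → B)).range = Subgroup.closure s := by
    rw [FreeGroup.range_lift_eq_closure, Subtype.range_coe]
  rw [← h1]
  exact Set.countable_range _

theorem countable_GG (k : ∀ i, A i → ℤ) (R : Set E) [Countable E] :
    Countable (GG S K ψ A φ k R) := by
  have h : GG S K ψ A φ k R ≤ Subgroup.closure
      (Set.range (D S K ψ A) ∪ Set.range (J S K A φ) ∪ (F S K ψ A k '' R)) := by
    refine sup_le (sup_le ?_ ?_) ?_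
    · rintro _ ⟨e, rfl⟩; exact Subgroup.subset_closure (Or.inl (Or.inl ⟨e, rfl⟩))
    · rintro _ ⟨v, rfl⟩; exact Subgroup.subset_closure (Or.inl (Or.inr ⟨v, rfl⟩))
    · exact Subgroup.closure_mono Set.subset_union_right
  have hc := countable_closure
    (Set.range (D S K ψ A) ∪ Set.range (J S K A φ) ∪ (F S K ψ A k '' R))
    (((Set.countable_range _).union (Set.countable_range _)).union
      ((Set.to_countable R).image _))
  exact Function.Injective.countable (Subgroup.inclusion_injective h)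

theorem fg_GG (k : ∀ i, A i → ℤ) (R : Set E) [Group.FG E] (hR : R.Finite) :
    Group.FG (GG S K ψ A φ k R) := by
  rw [Group.fg_iff_subgroup_fg]
  refine Subgroup.FG.sup (Subgroup.FG.sup ?_ ?_) ?_
  · exact (Group.fg_iff_subgroup_fg _).mp inferInstance
  · exact (Group.fg_iff_subgroup_fg _).mp inferInstance
  · exact ⟨(hR.image (F S K ψ A k)).toFinset, by rw [Set.Finite.coe_toFinset]⟩

end core

/-- Labels of the elements of a group along the cosets of a cyclic subgroup. -/
theorem exists_label {A : Type} [Group A] (c : A) :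
    ∃ k : A → ℤ, ∀ h, c ^ k (c⁻¹ * h) = c ^ (k h - 1) := by
  classical
  let s := QuotientGroup.rightRel (Subgroup.zpowers c)
  let rep : A → A := fun h => (Quotient.mk s h).out
  have h1 : ∀ h, ∃ k : ℤ, c ^ k = h * (rep h)⁻¹ := by
    intro h
    have h2 : s (rep h) h := Quotient.exact (Quotient.out_eq (Quotient.mk s h))
    exact Subgroup.mem_zpowers_iff.mp (QuotientGroup.rightRel_apply.mp h2)
  choose k hk using h1
  refine ⟨k, fun h => ?_⟩
  have h3 : rep (c⁻¹ * h) = rep h := by
    have : Quotient.mk s (c⁻¹ * h) = Quotient.mk s h := by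
      apply Quotient.sound
      apply QuotientGroup.rightRel_apply.mpr
      refine Subgroup.mem_zpowers_iff.mpr ⟨1, ?_⟩
      group
    exact congrArg Quotient.out this
  rw [hk, h3, zpow_sub, hk, zpow_one]
  have h4 : Commute (h * (rep h)⁻¹) c⁻¹ := by
    rw [← hk]
    exact ((Commute.refl c).zpow_left _).inv_right
  rw [h4.eq, mul_assoc]

theorem zpow_eq_of {A B : Type} [Group A] [Group B] (c : A) (hc : Monoid.exponent B ∣ orderOf c)
    (x : B) (a b : ℤ) (h : c ^ a = c ^ b) : x ^ a = x ^ b := by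
  rw [zpow_eq_zpow_iff_modEq] at h ⊢
  refine h.of_dvd ?_
  exact_mod_cast (Monoid.order_dvd_exponent x).trans hc

/-- A word involves finitely many letters only. -/
theorem exists_fin (w : FreeGroup ℕ) : ∃ (n : ℕ) (v : FreeGroup (Fin n)),
    FreeGroup.map Fin.val v = w := by
  have hcast : ∀ (a b : ℕ) (h : a ≤ b) (v : FreeGroup (Fin a)),
      FreeGroup.map Fin.val (FreeGroup.map (Fin.castLE h) v) = FreeGroup.map Fin.val v := by
    intro a b h v
    rw [FreeGroup.map.comp]
    rfl
  induction w using FreeGroup.induction_on with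
  | C1 => exact ⟨0, 1, map_one _⟩
  | of j => exact ⟨j + 1, FreeGroup.of ⟨j, Nat.lt_succ_self j⟩, FreeGroup.map.of⟩
  | inv_of j _ => exact ⟨j + 1, (FreeGroup.of ⟨j, Nat.lt_succ_self j⟩)⁻¹, by
      rw [map_inv, FreeGroup.map.of]⟩
  | mul x y hx hy =>
    obtain ⟨a, u, rfl⟩ := hx
    obtain ⟨b, v, rfl⟩ := hy
    refine ⟨max a b, FreeGroup.map (Fin.castLE (le_max_left a b)) u *
      FreeGroup.map (Fin.castLE (le_max_right a b)) v, ?_⟩
    rw [map_mul, hcast, hcast]

/-- The construction for a group given by a presentation. -/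
theorem present (W : Set (FreeGroup ℕ)) (w : FreeGroup ℕ) (hw : w ∈ W) (hw1 : w ≠ 1)
    {Q : Type} [Group Q] (hQ : InVariety W Q) {X : Type} (π : FreeGroup X →* Q)
    (hπ : Function.Surjective π) (R : Set (FreeGroup X))
    (hR : π.ker = verbal W (FreeGroup X) ⊔ Subgroup.normalClosure R) :
    ∃ (G : Type) (_ : Group G), ResiduallyFinite G ∧ (Countable X → Countable G) ∧
      (Finite X → R.Finite → Group.FG G) ∧
      ∃ (a : Q →* G ⧸ verbal W G) (b : G ⧸ verbal W G →* Q), b.comp a = MonoidHom.id Q := by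
  classical
  obtain ⟨n, v, rfl⟩ := exists_fin w
  have hv : v ≠ 1 := by
    rintro rfl
    exact hw1 (map_one _)
  let I : Type := {p : Subgroup (FreeGroup X) × FreeGroup X // p.1.FG ∧ p.2 ∉ p.1}
  have h1 : ∀ i : I, ∃ (A : Type) (_ : Group A) (_ : Finite A) (φ : FreeGroup X →* A),
      ∀ t ∈ i.1.1, φ i.1.2 ≠ φ t := fun i => lerf i.1.1 i.2.1 i.1.2 i.2.2
  choose K gK fK ψ hψ using h1
  have h2 : ∀ i : I, ∃ (A : Type) (_ : Group A) (_ : Finite A) (φ : FreeGroup (Fin n) →* A),
      Monoid.exponent (K i) ∣ orderOf (φ v) := fun i =>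
    order_div v hv _ (Nat.pos_of_ne_zero Monoid.exponent_ne_zero_of_finite)
  choose A gA fA φ hφ using h2
  have h3 : ∀ i : I, ∃ k : A i → ℤ, ∀ h, (φ i v) ^ k ((φ i v)⁻¹ * h) = (φ i v) ^ (k h - 1) :=
    fun i => exists_label (φ i v)
  choose k hk using h3
  let S : Subgroup (FreeGroup X) := π.ker
  let e : (FreeGroup X ⧸ S) ≃* Q := QuotientGroup.quotientKerEquivOfSurjective π hπ
  have hV : InVariety W (FreeGroup X ⧸ S) := by
    intro w hw f
    apply e.injective
    have h4 := lift_comp e.toMonoidHom f w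
    change e (FreeGroup.lift f w) = _ at h4
    rw [h4, hQ w hw, map_one]
  have hsep : ∀ T : Subgroup (FreeGroup X), T.FG → T ≤ S → ∀ e,
      (∀ i, ∃ t ∈ T, ψ i e = ψ i t) → e ∈ S := by
    intro T hT hTS e he
    by_contra hc
    obtain ⟨t, ht, h5⟩ := he ⟨(T, e), hT, fun h => hc (hTS h)⟩
    exact hψ ⟨(T, e), hT, fun h => hc (hTS h)⟩ t ht h5
  have hRS : R ⊆ S := by
    intro x hx
    have h4 : x ∈ π.ker := by
      rw [hR]
      exact Subgroup.mem_sup_right (Subgroup.subset_normalClosure hx)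
    exact h4
  refine ⟨GG S K ψ A φ k R, inferInstance,
    rf_Gam S K ψ A hsep _ (GG_le S K ψ A φ k R hRS), ?_, ?_, ?_⟩
  · intro _
    exact countable_GG S K ψ A φ k R
  · intro _ hfin
    exact fg_GG S K ψ A φ k R hfin
  · obtain ⟨a, b, hab⟩ := retract S K ψ A φ W v hw hV k
      (fun i s h => zpow_eq_of (φ i v) (hφ i) _ _ _ (hk i h)) R hRS hR.le
    refine ⟨a.comp e.symm.toMonoidHom, e.toMonoidHom.comp b, ?_⟩
    ext q
    have h6 := DFunLike.congr_fun hab (e.symm q)
    change e (b (a (e.symm q))) = q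
    change b (a (e.symm q)) = e.symm q at h6
    rw [h6, MulEquiv.apply_symm_apply]

end Pool.Agent.Y35.VQ
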